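import Pool.Agent.H385R2.EcFin

/-!
# Zeros of `L(E_D ⊗ χ, s)` on the critical line `Re s = 1`

`E_D : y² = x³ - D² x` are the congruent number curves, `D` odd and squarefree, and `χ` runs over all
primitive Dirichlet characters whose conductor `q` is prime to `2 D` and lies in a window
`X < q ≤ Y`.  (For every `q` the functions `L(E_D ⊗ χ, s)` are the factors of the `L`-function of
`E_D` over the cyclotomic field `ℚ(ζ_q)`.)  Unconditionally at least 67.25% of the nontrivial zeros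
with ordinate in `(T, 2T]` are simple and lie on the critical line, and at least 83.625% of them
are distinct.

TEAM Q2 (helper385, helper304, with helper65, 332, 356, 497, 658, 668, 831, 880, 909, 911, 992).
-/

open Complex

namespace Pool.Agent.Results.MP_553913_nt.CongruentTwists6725

/-- The coefficient `a_p` of `E_D : y² = x³ - D² x` (for `p ∤ 2 D`): `p` minus the number of pairs
`(x, y)` modulo `p` with `y² ≡ x³ - D² x (mod p)`. -/
noncomputable def a (D p : ℕ) : ℤ :=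
  (p : ℤ) - (((Finset.range p ×ˢ Finset.range p).filter
    (fun xy : ℕ × ℕ => (p : ℤ) ∣ (xy.2 : ℤ) ^ 2 -
      ((xy.1 : ℤ) ^ 3 - (D : ℤ) ^ 2 * (xy.1 : ℤ)))).card : ℤ)

/-- The Euler factor of `L(E_D ⊗ χ, s)` at the prime `p`:
`(1 - χ(p) a_p p^(-s) + χ(p)² p^(1-2s))⁻¹` for `p ∤ 2 D`, and `1` at the primes dividing `2 D`,
where `E_D` has additive reduction. -/
noncomputable def factor (D q : ℕ) (χ : DirichletCharacter ℂ q) (s : ℂ) (p : ℕ) : ℂ :=
  if p ∣ 2 * D then 1 else
    (1 - χ (p : ZMod q) * (a D p : ℂ) * (p : ℂ) ^ (-s) +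
      χ (p : ZMod q) ^ 2 * (p : ℂ) ^ (1 - 2 * s))⁻¹

/-- The nontrivial zeros of `F` with ordinate in `(T, 2T]`: the zeros with `1/2 < Re s < 3/2` and
`T < Im s ≤ 2T`. -/
def zeros (F : ℂ → ℂ) (T : ℝ) : Set ℂ :=
  {s : ℂ | 1 / 2 < s.re ∧ s.re < 3 / 2 ∧ T < s.im ∧ s.im ≤ 2 * T ∧ F s = 0}

/-- The number of these zeros, counted with multiplicity. -/
noncomputable def N (F : ℂ → ℂ) (T : ℝ) : ℕ := ∑ᶠ s ∈ zeros F T, analyticOrderNatAt F s

/-- The number of those of them that are simple and lie on the critical line `Re s = 1`. -/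
noncomputable def Ns (F : ℂ → ℂ) (T : ℝ) : ℕ :=
  {s : ℂ | s ∈ zeros F T ∧ s.re = 1 ∧ analyticOrderNatAt F s = 1}.ncard

/-- The number of distinct zeros. -/
noncomputable def Nd (F : ℂ → ℂ) (T : ℝ) : ℕ := (zeros F T).ncard

/-- The sum of `f q χ / q²` over all primitive Dirichlet characters `χ` of conductor `q` prime to
`M`, `X < q ≤ Y`. -/
noncomputable def fam (M X Y : ℕ) (f : (q : ℕ) → DirichletCharacter ℂ q → ℕ) : ℝ :=
  ∑ q ∈ (Finset.Ioc X Y).filter (fun q => Nat.Coprime q M), (1 / (q : ℝ) ^ 2) *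
    ∑ᶠ χ : {χ : DirichletCharacter ℂ q // χ.IsPrimitive}, (f q χ : ℝ)

/-! ### Translation from the analytic normalisation -/

theorem order_shift (L : ℂ → ℂ) (s : ℂ) :
    analyticOrderNatAt (fun z => L (z - 1 / 2)) (s + 1 / 2) = analyticOrderNatAt L s := by
  have hg : AnalyticAt ℂ (fun z : ℂ => z - 1 / 2) (s + 1 / 2) := by fun_prop
  have hd : deriv (fun z : ℂ => z - 1 / 2) (s + 1 / 2) ≠ 0 := by
    simp
  have h := analyticOrderAt_comp_of_deriv_ne_zero (f := L) hg hd
  unfold analyticOrderNatAt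
  have h2 : (fun z : ℂ => L (z - 1 / 2)) = L ∘ (fun z : ℂ => z - 1 / 2) := rfl
  rw [h2, h]
  norm_num

theorem mem_shift (L : ℂ → ℂ) (T : ℝ) (s : ℂ) :
    s + 1 / 2 ∈ zeros (fun z => L (z - 1 / 2)) T ↔ s ∈ H370.zset L T (2 * T) := by
  have h1 : (s + 1 / 2 : ℂ).re = s.re + 1 / 2 := by simp
  have h2 : (s + 1 / 2 : ℂ).im = s.im := by simp
  have h3 : s + 1 / 2 - 1 / 2 = s := by ring
  constructor
  · rintro ⟨a, b, c, d, e⟩
    rw [h1] at a b
    rw [h2] at c d
    simp only [h3] at e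
    exact ⟨by linarith, by linarith, c, d, e⟩
  · rintro ⟨a, b, c, d, e⟩
    refine ⟨by rw [h1]; linarith, by rw [h1]; linarith, by rw [h2]; exact c,
      by rw [h2]; exact d, ?_⟩
    simp only [h3]
    exact e

theorem zeros_shift (L : ℂ → ℂ) (T : ℝ) :
    zeros (fun z => L (z - 1 / 2)) T = (fun s : ℂ => s + 1 / 2) '' H370.zset L T (2 * T) := by
  ext s
  constructor
  · intro hs
    refine ⟨s - 1 / 2, ?_, by ring⟩
    rw [← mem_shift]
    convert hs using 1
    ring
  · rintro ⟨t, ht, rfl⟩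
    exact (mem_shift L T t).mpr ht

theorem inj_shift : Function.Injective (fun s : ℂ => s + 1 / 2) := fun a b h => by
  simpa using h

theorem N_shift (L : ℂ → ℂ) (T : ℝ) :
    N (fun z => L (z - 1 / 2)) T = H370.NN L T (2 * T) := by
  unfold N H370.NN
  rw [zeros_shift, finsum_mem_image (inj_shift.injOn)]
  refine finsum_congr fun s => finsum_congr fun _ => ?_
  exact order_shift L s

theorem Nd_shift (L : ℂ → ℂ) (T : ℝ) :
    Nd (fun z => L (z - 1 / 2)) T = H370.Nd L T (2 * T) := by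
  unfold Nd H370.Nd
  rw [zeros_shift, Set.ncard_image_of_injective _ inj_shift]

theorem Ns_shift (L : ℂ → ℂ) (T : ℝ) :
    Ns (fun z => L (z - 1 / 2)) T = H370.Ns L T (2 * T) := by
  unfold Ns H370.Ns
  rw [← Set.ncard_image_of_injective {s : ℂ | s ∈ H370.zset L T (2 * T) ∧ s.re = 1 / 2 ∧
    H370.mult L s = 1} inj_shift]
  congr 1
  ext s
  constructor
  · rintro ⟨h1, h2, h3⟩
    refine ⟨s - 1 / 2, ⟨?_, ?_, ?_⟩, by ring⟩
    · rw [← mem_shift]
      convert h1 using 1
      ring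
    · simp [h2]; norm_num
    · unfold H370.mult
      rw [← order_shift]
      convert h3 using 2
      ring
  · rintro ⟨t, ⟨h1, h2, h3⟩, rfl⟩
    refine ⟨(mem_shift L T t).mpr h1, ?_, ?_⟩
    · simp [h2]; norm_num
    · rw [order_shift]; exact h3

theorem factor_shift (D q : ℕ) (χ : DirichletCharacter ℂ q) (s : ℂ) (p : ℕ) :
    factor D q χ s p = H385.eulD D q χ (s - 1 / 2) p := by
  unfold factor H385.eulD
  have h1 : -(s - 1 / 2 + 1 / 2) = -s := by ring
  have h2 : -2 * (s - 1 / 2) = 1 - 2 * s := by ring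
  rw [h1, h2]
  rfl

/-- **Main theorem.** Let `D` be odd and squarefree. For every primitive Dirichlet character `χ` of
conductor `q` prime to `2 D` there is an entire function `L q χ` which for `Re s > 3/2` is the
Euler product of `L(E_D ⊗ χ, s)`; and in every window `X < q ≤ Y` with `K X ≤ Y ≤ X ^ (1 + η)`,
`X ≥ X₀`, and for every `T` with `(log X)² ≤ T ≤ X ^ η`, at least 67.25% of the zeros in
`1/2 < Re s < 3/2`, `T < Im s ≤ 2T` of these functions (weight `1/q²`, counted with multiplicity)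
are simple and lie on the line `Re s = 1`, and the number of distinct zeros is at least 83.625% of
the number of zeros. -/
theorem result (D : ℕ) (hD : Odd D) (hsf : Squarefree D) :
    ∃ L : (q : ℕ) → DirichletCharacter ℂ q → ℂ → ℂ,
      (∀ (q : ℕ) (χ : DirichletCharacter ℂ q), 1 ≤ q → Nat.Coprime q (2 * D) → χ.IsPrimitive →
        Differentiable ℂ (L q χ) ∧ ∀ s : ℂ, 3 / 2 < s.re →
          HasProd (fun p : Nat.Primes => factor D q χ s p) (L q χ s)) ∧
      ∃ K η X0 : ℝ, 1 ≤ K ∧ 0 < η ∧ 1 ≤ X0 ∧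
        ∀ (X Y : ℕ) (T : ℝ), X0 ≤ X → K * X ≤ Y → (Y : ℝ) ≤ (X : ℝ) ^ (1 + η) →
        (Real.log X) ^ 2 ≤ T → T ≤ (X : ℝ) ^ η →
        0.6725 * fam (2 * D) X Y (fun q χ => N (L q χ) T) ≤
          fam (2 * D) X Y (fun q χ => Ns (L q χ) T) ∧
        0.83625 * fam (2 * D) X Y (fun q χ => N (L q χ) T) ≤
          fam (2 * D) X Y (fun q χ => Nd (L q χ) T) := by
  obtain ⟨L, hL, K, η, X0, hK, hη, hX0, h⟩ := H385.ec_final D hD hsf
  refine ⟨fun q χ s => L q χ (s - 1 / 2), ?_, K, η, X0, hK, hη, hX0, ?_⟩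
  · intro q χ hq hqM hχ
    obtain ⟨h1, h2⟩ := hL q χ hq hqM hχ
    refine ⟨h1.comp (by fun_prop), fun s hs => ?_⟩
    have h3 := h2 (s - 1 / 2) (by
      have : (s - 1 / 2 : ℂ).re = s.re - 1 / 2 := by simp
      rw [this]; linarith)
    have e : (fun p : Nat.Primes => factor D q χ s p) =
        (fun p : Nat.Primes => H385.eulD D q χ (s - 1 / 2) p) :=
      funext fun p => factor_shift D q χ s p
    rw [e]
    exact h3
  · intro X Y T a1 a2 a3 a4 a5
    obtain ⟨b1, b2⟩ := h X Y T a1 a2 a3 a4 a5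
    simp only [N_shift, Ns_shift, Nd_shift]
    exact ⟨b1, b2⟩

end Pool.Agent.Results.MP_553913_nt.CongruentTwists6725
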