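import Pool.Agent.H128R3.EC.NF
import Pool.Agent.H986R2.GD.Inst

/-!
# De Bruijn-Newman constants of the derivatives of L-functions of elliptic curves

Let `N ≥ 1` and let `f ∈ S_2(Γ_0(N))` have real Fourier coefficients `a(n)`, `a(1) = 1`, and be an
eigenfunction of the Fricke involution.  Every newform of weight 2 with real coefficients is of this
kind; by the modularity theorem (Wiles, Taylor-Wiles, Breuil-Conrad-Diamond-Taylor) the L-function of
every elliptic curve over `ℚ` of conductor `N` is `L(f, s)` for such an `f`.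

Let `Λ_t = e^{t D²} Λ` (`D = d/ds`) be the heat flow of the completed L-function.  All zeros of `Λ` are on
the line `Re s = 1` if and only if the same is true of `Λ_t` for all `t > 0` (de Bruijn, Newman).  We
prove that there is a constant `C` such that for ALL `t > 0` and ALL `n ≥ C / t` every zero of the `n`-th
derivative of `Λ_t` is on the line `Re s = 1`; and all zeros of `Λ` are on this line if and only if the
same is true in the remaining region `n t < C`.

Generic version (modules `Pool.Agent.H986R2.GD`) of the theorem for the Riemann zeta function at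
`MP_6c42c1_nt`, on top of the modules `Pool.Agent.H471R3.GJ` of helper471, `Pool.Agent.H24R2.JP` of
helper24 and `Pool.Agent.H128R3.EC` of helper128.
-/

set_option autoImplicit false

namespace Pool.Agent.Results.MP_553913_nt.DeBruijnNewman

open UpperHalfPlane MatrixGroups CongruenceSubgroup

/-- `f` has real Fourier coefficients `a(n)` with `a(1) = 1` and satisfies
`f(-1/(Nτ)) = -ε N τ² f(τ)`, where `ε = ± 1` is the root number. -/
structure IsNormalized (N : ℕ) (f : CuspForm (Gamma0 N : Subgroup (GL (Fin 2) ℝ)) 2) (ε : ℝ) : Prop where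
  one : (qExpansion 1 f).coeff 1 = 1
  real : ∀ n, ((qExpansion 1 f).coeff n).im = 0
  sign : ε = 1 ∨ ε = -1
  fricke : ∀ τ τ' : ℍ, (τ' : ℂ) * ((N : ℂ) * (τ : ℂ)) = -1 →
    f τ' = -(ε : ℂ) * (N : ℂ) * (τ : ℂ) ^ 2 * f τ

/-- `Λ` is the completed L-function of `f`: it is entire and
`Λ(s) = N^(s/2) (2π)^(-s) Γ(s) ∑ a(n) n^(-s)` for `Re s > 2`. -/
def IsCompleted (N : ℕ) (f : CuspForm (Gamma0 N : Subgroup (GL (Fin 2) ℝ)) 2) (Λ : ℂ → ℂ) : Prop :=
  Differentiable ℂ Λ ∧ ∀ s : ℂ, 2 < s.re →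
    Λ s = ((Real.sqrt N / (2 * Real.pi) : ℝ) : ℂ) ^ s * Complex.Gamma s *
      ∑' n : ℕ, (qExpansion 1 f).coeff (n + 1) * ((n + 1 : ℕ) : ℂ) ^ (-s)

/-- The heat flow `Λ_t = e^{t D²} Λ` (`D = d/ds`) as a Gaussian average:
`Λ_t(s) = π^(-1/2) ∫ exp (-v²) Λ(s + 2 √t v) dv`. -/
noncomputable def heat (t : ℝ) (Λ : ℂ → ℂ) (s : ℂ) : ℂ :=
  ((1 / Real.sqrt Real.pi : ℝ) : ℂ) *
    ∫ v : ℝ, ((Real.exp (-v ^ 2) : ℝ) : ℂ) * Λ (s + ((2 * Real.sqrt t * v : ℝ) : ℂ))

theorem result (N : ℕ) [NeZero N] (f : CuspForm (Gamma0 N : Subgroup (GL (Fin 2) ℝ)) 2) (ε : ℝ)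
    (hf : IsNormalized N f ε) :
    ∃ Λ : ℂ → ℂ, IsCompleted N f Λ ∧ (∀ s : ℂ, Λ (2 - s) = (ε : ℂ) * Λ s) ∧
      ∃ C : ℝ, 0 < C ∧
        (∀ (t : ℝ) (n : ℕ), 0 < t → C ≤ n * t → ∀ s : ℂ,
          iteratedDeriv n (heat t Λ) s = 0 → s.re = 1) ∧
        ((∀ s : ℂ, Λ s = 0 → s.re = 1) ↔
          ∀ (t : ℝ) (n : ℕ), 0 < t → n * t < C → ∀ s : ℂ,
            iteratedDeriv n (heat t Λ) s = 0 → s.re = 1) := by
  have hf' : Pool.Agent.H128R3.EC.IsNorm N f ε := ⟨hf.one, hf.real, hf.sign, hf.fricke⟩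
  obtain ⟨B, hH⟩ := Pool.Agent.H128R3.EC.nf_isHk f hf'
  set H := Pool.Agent.H128R3.EC.nfHk N f B ε with hHdef
  set Λ : ℂ → ℂ := mellin (fun y : ℝ => ((H.φ y : ℝ) : ℂ)) with hΛ
  have hk1 : ((H.k / 2 : ℝ) : ℂ) = 1 := by
    show (((2 : ℝ) / 2 : ℝ) : ℂ) = 1
    norm_num
  have hk2 : (H.k : ℂ) = 2 := by
    show ((2 : ℝ) : ℂ) = 2
    norm_num
  have hk3 : H.k / 2 = 1 := by
    show (2 : ℝ) / 2 = 1
    norm_num
  have hd := Pool.Agent.H128R3.GJB.mellin_diff hH
  have hfs : Pool.Agent.H471R3.GJ.Inst.FS H = fun z : ℂ => Λ (1 + z) := by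
    funext z
    unfold Pool.Agent.H471R3.GJ.Inst.FS
    rw [hk1]
  have hheat : ∀ t : ℝ, Pool.Agent.H986R2.GD.heatG t (fun z : ℂ => Λ (1 + z)) =
      fun z => heat t Λ (1 + z) := by
    intro t
    funext z
    unfold Pool.Agent.H986R2.GD.heatG heat
    simp only [add_assoc]
  have hiter : ∀ (t : ℝ) (n : ℕ) (z : ℂ),
      iteratedDeriv n (Pool.Agent.H986R2.GD.heatG t (fun z : ℂ => Λ (1 + z))) z =
        iteratedDeriv n (heat t Λ) (1 + z) := by
    intro t n z
    rw [hheat]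
    exact congrFun (iteratedDeriv_comp_const_add n (heat t Λ) 1) z
  have hcrit := Pool.Agent.H986R2.GD.critS H hH
  rw [hfs, hk3] at hcrit
  obtain ⟨C, hC, h1, h2⟩ := hcrit
  refine ⟨Λ, ⟨hd, fun s hs => Pool.Agent.H128R3.EC.nf_dir f hf' hH s hs⟩, ?_, C, hC, ?_, h2.trans ?_⟩
  · intro s
    have h3 := Pool.Agent.H128R3.GJB.mellin_fe hH s
    rw [hk2] at h3
    have h4 : ((-1 : ℂ)) ^ Pool.Agent.H128R3.GJB.pr H = (ε : ℂ) := by
      have hε : H.ε = ε := rfl
      unfold Pool.Agent.H128R3.GJB.pr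
      rw [hε]
      rcases hf.sign with h | h
      · rw [if_pos h, h]
        norm_num
      · rw [if_neg (by rw [h]; norm_num), h]
        norm_num
    rw [h4] at h3
    exact h3
  · intro t n ht hn s hs
    have h3 := h1 t n ht hn (s - 1) (by
      rw [hiter]
      have : 1 + (s - 1) = s := by ring
      rw [this, hs])
    rw [Complex.sub_re, Complex.one_re] at h3
    linarith
  · constructor
    · intro h t n ht hn s hs
      have h3 := h t n ht hn (s - 1) (by
        rw [hiter]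
        have : 1 + (s - 1) = s := by ring
        rw [this, hs])
      rw [Complex.sub_re, Complex.one_re] at h3
      linarith
    · intro h t n ht hn z hz
      rw [hiter] at hz
      have h3 := h t n ht hn _ hz
      rw [Complex.add_re, Complex.one_re] at h3
      linarith

end Pool.Agent.Results.MP_553913_nt.DeBruijnNewman
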