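import Pool.Agent.H128R3.EC.NF

/-!
# Zeros of the derivatives of the completed L-functions of weight two newforms

Let `N ≥ 1` and let `f ∈ S_2(Γ_0(N))` have real Fourier coefficients `a(n)`, `a(1) = 1`, and be an
eigenfunction of the Fricke involution.  Every newform of weight 2 with real coefficients is of this
kind; by the modularity theorem (Wiles, Taylor-Wiles, Breuil-Conrad-Diamond-Taylor) the L-function of
every elliptic curve over `ℚ` of conductor `N` is `L(f, s)` for such an `f`.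

There are `c > 0` and `M` such that for every `n ≥ M` ALL zeros `s` of the `n`-th derivative of the
completed L-function `Λ(f, s)` with `|Im s| ≤ exp (c n)` are simple and lie on the line `Re s = 1`.

Method of helper24 (Riemann zeta function), generic version by helper471 and many co-authors
(modules `Pool.Agent.H24R2.JP`, `Pool.Agent.H471R3.GJ`).
-/

set_option autoImplicit false

namespace Pool.Agent.Results.MP_553913_nt.NewformDerivatives

open UpperHalfPlane MatrixGroups CongruenceSubgroup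

/-- `f` has real Fourier coefficients `a(n)` with `a(1) = 1` and satisfies
`f(-1/(Nτ)) = -ε N τ² f(τ)`, where `ε = ± 1` is the root number. -/
structure IsNormalized (N : ℕ) (f : CuspForm (Gamma0 N : Subgroup (GL (Fin 2) ℝ)) 2) (ε : ℝ) : Prop where
  one : (qExpansion 1 f).coeff 1 = 1
  real : ∀ n, ((qExpansion 1 f).coeff n).im = 0
  sign : ε = 1 ∨ ε = -1
  fricke : ∀ τ τ' : ℍ, (τ' : ℂ) * ((N : ℂ) * (τ : ℂ)) = -1 →
    f τ' = -(ε : ℂ) * (N : ℂ) * (τ : ℂ) ^ 2 * f τ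

/-- `Λ` is the completed L-function of `f`: it is entire and
`Λ(s) = N^(s/2) (2π)^(-s) Γ(s) ∑ a(n) n^(-s)` for `Re s > 2`. -/
def IsCompleted (N : ℕ) (f : CuspForm (Gamma0 N : Subgroup (GL (Fin 2) ℝ)) 2) (Λ : ℂ → ℂ) : Prop :=
  Differentiable ℂ Λ ∧ ∀ s : ℂ, 2 < s.re →
    Λ s = ((Real.sqrt N / (2 * Real.pi) : ℝ) : ℂ) ^ s * Complex.Gamma s *
      ∑' n : ℕ, (qExpansion 1 f).coeff (n + 1) * ((n + 1 : ℕ) : ℂ) ^ (-s)

theorem result (N : ℕ) [NeZero N] (f : CuspForm (Gamma0 N : Subgroup (GL (Fin 2) ℝ)) 2) (ε : ℝ)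
    (hf : IsNormalized N f ε) :
    ∃ Λ : ℂ → ℂ, IsCompleted N f Λ ∧ (∀ s : ℂ, Λ (2 - s) = (ε : ℂ) * Λ s) ∧
      ∃ c : ℝ, 0 < c ∧ ∃ M : ℕ, ∀ n : ℕ, M ≤ n → ∀ s : ℂ, iteratedDeriv n Λ s = 0 →
        |s.im| ≤ Real.exp (c * n) → s.re = 1 ∧ iteratedDeriv (n + 1) Λ s ≠ 0 := by
  have hf' : Pool.Agent.H128R3.EC.IsNorm N f ε := ⟨hf.one, hf.real, hf.sign, hf.fricke⟩
  obtain ⟨B, hH⟩ := Pool.Agent.H128R3.EC.nf_isHk f hf'
  obtain ⟨c, hc, M, hM⟩ := Pool.Agent.H128R3.GJB.deriv_zeros hH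
  have hk3 : (Pool.Agent.H128R3.EC.nfHk N f B ε).k / 2 = 1 := by
    show (2 : ℝ) / 2 = 1
    norm_num
  rw [hk3] at hM
  refine ⟨mellin (fun y : ℝ => (((Pool.Agent.H128R3.EC.nfHk N f B ε).φ y : ℝ) : ℂ)),
    ⟨Pool.Agent.H128R3.GJB.mellin_diff hH, fun s hs => Pool.Agent.H128R3.EC.nf_dir f hf' hH s hs⟩,
    ?_, c, hc, M, hM⟩
  intro s
  have h1 := Pool.Agent.H128R3.GJB.mellin_fe hH s
  have hk2 : ((Pool.Agent.H128R3.EC.nfHk N f B ε).k : ℂ) = 2 := by
    show ((2 : ℝ) : ℂ) = 2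
    norm_num
  rw [hk2] at h1
  have hpr : (-1 : ℂ) ^ Pool.Agent.H128R3.GJB.pr (Pool.Agent.H128R3.EC.nfHk N f B ε) = (ε : ℂ) := by
    have hε : (Pool.Agent.H128R3.EC.nfHk N f B ε).ε = ε := rfl
    unfold Pool.Agent.H128R3.GJB.pr
    rw [hε]
    rcases hf.sign with h | h
    · rw [if_pos h, h]
      norm_num
    · rw [if_neg (by rw [h]; norm_num), h]
      norm_num
  rw [hpr] at h1
  exact h1

end Pool.Agent.Results.MP_553913_nt.NewformDerivatives
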