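import Pool.Agent.H128R3.EC.NF

/-!
# Jensen polynomials of the L-functions of weight two newforms

Let `N ≥ 1` and let `f ∈ S_2(Γ_0(N))` have real Fourier coefficients `a(n)`, `a(1) = 1`, and be an
eigenfunction of the Fricke involution.  Every newform of weight 2 with real coefficients is of this
kind; by the modularity theorem (Wiles, Taylor-Wiles, Breuil-Conrad-Diamond-Taylor) the L-function of
every elliptic curve over `ℚ` of conductor `N` is `L(f, s)` for such an `f`.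

All zeros of the completed L-function `Λ(f, s)` lie on the line `Re s = 1` if and only if all Jensen
polynomials `J^{d,n}` of its Taylor coefficients at the central point `s = 1` have only real
nonpositive zeros (or vanish).  We prove that there is a constant `C` such that `J^{d,n}` has only
real negative zeros for ALL degrees `d` and ALL shifts `n ≥ C log (d + 1)`.  So for every degree only
`O(log d)` Jensen polynomials remain.

Method of helper24 (Riemann zeta function), generic version by helper471 and many co-authors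
(modules `Pool.Agent.H24R2.JP`, `Pool.Agent.H471R3.GJ`).
-/

set_option autoImplicit false

namespace Pool.Agent.Results.MP_553913_nt.NewformJensen

open Polynomial UpperHalfPlane MatrixGroups CongruenceSubgroup

/-- `f` has real Fourier coefficients `a(n)` with `a(1) = 1` and satisfies
`f(-1/(Nτ)) = -ε N τ² f(τ)`, where `ε = ± 1` is the root number. -/
structure IsNormalized (N : ℕ) (f : CuspForm (Gamma0 N : Subgroup (GL (Fin 2) ℝ)) 2) (ε : ℝ) : Prop where
  one : (qExpansion 1 f).coeff 1 = 1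
  real : ∀ n, ((qExpansion 1 f).coeff n).im = 0
  sign : ε = 1 ∨ ε = -1
  fricke : ∀ τ τ' : ℍ, (τ' : ℂ) * ((N : ℂ) * (τ : ℂ)) = -1 →
    f τ' = -(ε : ℂ) * (N : ℂ) * (τ : ℂ) ^ 2 * f τ

/-- `Λ` is the completed L-function of `f`: it is entire and
`Λ(s) = N^(s/2) (2π)^(-s) Γ(s) ∑ a(n) n^(-s)` for `Re s > 2`. -/
def IsCompleted (N : ℕ) (f : CuspForm (Gamma0 N : Subgroup (GL (Fin 2) ℝ)) 2) (Λ : ℂ → ℂ) : Prop :=
  Differentiable ℂ Λ ∧ ∀ s : ℂ, 2 < s.re →
    Λ s = ((Real.sqrt N / (2 * Real.pi) : ℝ) : ℂ) ^ s * Complex.Gamma s *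
      ∑' n : ℕ, (qExpansion 1 f).coeff (n + 1) * ((n + 1 : ℕ) : ℂ) ^ (-s)

/-- The coefficients `γ(k) = k! / (2k+r)! * Λ^(2k+r)(1)` (these derivatives are real), where `r` is
`0` or `1` according to the sign of the functional equation, so that
`Λ(1 + z) = z^r ∑ γ(k) z^(2k) / k!`. -/
noncomputable def gamma (Λ : ℂ → ℂ) (r k : ℕ) : ℝ :=
  (k.factorial : ℝ) / ((2 * k + r).factorial : ℝ) * (iteratedDeriv (2 * k + r) Λ 1).re

/-- The Jensen polynomial `J^{d,n}(X) = ∑_{j ≤ d} binom(d,j) γ(n+j) X^j` of degree `d` and shift `n`. -/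
noncomputable def jensen (Λ : ℂ → ℂ) (r d n : ℕ) : ℝ[X] :=
  ∑ j ∈ Finset.range (d + 1), C ((d.choose j : ℝ) * gamma Λ r (n + j)) * X ^ j

theorem result (N : ℕ) [NeZero N] (f : CuspForm (Gamma0 N : Subgroup (GL (Fin 2) ℝ)) 2) (ε : ℝ)
    (hf : IsNormalized N f ε) :
    ∃ Λ : ℂ → ℂ, IsCompleted N f Λ ∧
      ∃ r : ℕ, r ≤ 1 ∧ (-1) ^ r = ε ∧ (∀ s : ℂ, Λ (2 - s) = (-1) ^ r * Λ s) ∧
      ∃ C : ℝ, 0 < C ∧
        (∀ d n : ℕ, 1 ≤ d → C * Real.log (d + 1) ≤ n →
          ∀ z : ℂ, aeval z (jensen Λ r d n) = 0 → z.im = 0 ∧ z.re < 0) ∧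
        ((∀ s : ℂ, Λ s = 0 → s.re = 1) ↔
          ∀ d n : ℕ, (n : ℝ) < C * Real.log (d + 1) → jensen Λ r d n = 0 ∨
            ∀ z : ℂ, aeval z (jensen Λ r d n) = 0 → z.im = 0 ∧ z.re ≤ 0) := by
  have hf' : Pool.Agent.H128R3.EC.IsNorm N f ε := ⟨hf.one, hf.real, hf.sign, hf.fricke⟩
  obtain ⟨B, hH⟩ := Pool.Agent.H128R3.EC.nf_isHk f hf'
  set H := Pool.Agent.H128R3.EC.nfHk N f B ε with hHdef
  set Λ : ℂ → ℂ := mellin (fun y : ℝ => ((H.φ y : ℝ) : ℂ)) with hΛ
  have hk1 : ((H.k / 2 : ℝ) : ℂ) = 1 := by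
    show (((2 : ℝ) / 2 : ℝ) : ℂ) = 1
    norm_num
  have hk2 : (H.k : ℂ) = 2 := by
    show ((2 : ℝ) : ℂ) = 2
    norm_num
  have hga : Pool.Agent.H128R3.GJB.ga H = gamma Λ (Pool.Agent.H128R3.GJB.pr H) := by
    funext k
    rw [Pool.Agent.H128R3.GJB.ga_mellin, hk1]
    rfl
  have hJe : ∀ d n, Pool.Agent.H128R3.GJB.Je H d n = jensen Λ (Pool.Agent.H128R3.GJB.pr H) d n := by
    intro d n
    unfold Pool.Agent.H128R3.GJB.Je jensen
    rw [hga]
  have hpr : (-1 : ℝ) ^ Pool.Agent.H128R3.GJB.pr H = ε := by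
    have hε : H.ε = ε := rfl
    unfold Pool.Agent.H128R3.GJB.pr
    rw [hε]
    rcases hf.sign with h | h
    · rw [if_pos h, h]
      norm_num
    · rw [if_neg (by rw [h]; norm_num), h]
      norm_num
  refine ⟨Λ, ⟨Pool.Agent.H128R3.GJB.mellin_diff hH, fun s hs =>
    Pool.Agent.H128R3.EC.nf_dir f hf' hH s hs⟩, Pool.Agent.H128R3.GJB.pr H,
    Pool.Agent.H128R3.GJB.pr_le H, hpr, ?_, ?_⟩
  · intro s
    have h1 := Pool.Agent.H128R3.GJB.mellin_fe hH s
    rw [hk2] at h1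
    exact h1
  · obtain ⟨C, hC, h1, h2⟩ := Pool.Agent.H128R3.GJB.jensen_nh hH
    refine ⟨C, hC, ?_, ?_⟩
    · intro d n hd hdn z hz
      rw [← hJe] at hz
      exact h1 d n hd hdn z hz
    · have hk3 : H.k / 2 = 1 := by
        show (2 : ℝ) / 2 = 1
        norm_num
      rw [hk3] at h2
      refine h2.trans ?_
      constructor
      · intro h d n hdn
        have h3 := h d n hdn
        rw [hJe] at h3
        exact h3
      · intro h d n hdn
        rw [hJe]
        exact h d n hdn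

end Pool.Agent.Results.MP_553913_nt.NewformJensen
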